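import Pool.Agent.Run7.h92.JG.Stm

set_option autoImplicit false

/-!
# Elementary rules for `e`, `ip`, `pr`, `sh`
-/

namespace Run7.h824.JG

open Complex MatrixGroups ModularGroup Pool.Agent.Run7.h92.JG
open UpperHalfPlane hiding I

noncomputable section

lemma e_add (a b : ℂ) : e (a + b) = e a * e b := by
  unfold e
  rw [← Complex.exp_add]
  ring_nf

lemma e_zero : e 0 = 1 := by simp [e]

lemma e_int (m : ℤ) : e (m : ℂ) = 1 := by
  unfold e
  rw [Complex.exp_eq_one_iff]
  exact ⟨m, by ring⟩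

lemma e_half (m : ℤ) : e ((m : ℂ) + 1 / 2) = -1 := by
  rw [e_add, e_int, one_mul]
  unfold e
  rw [show (2 * Real.pi * I * (1 / 2) : ℂ) = Real.pi * I by ring, Complex.exp_pi_mul_I]

variable {n : ℕ}

lemma ip_comm (x y : Fin n → ℝ) : ip x y = ip y x := by
  unfold ip
  exact Finset.sum_congr rfl fun i _ => mul_comm _ _

lemma ip_add_left (x y w : Fin n → ℝ) : ip (x + y) w = ip x w + ip y w := by
  simp only [ip, Pi.add_apply, add_mul, Finset.sum_add_distrib]

lemma ip_sub_left (x y w : Fin n → ℝ) : ip (x - y) w = ip x w - ip y w := by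
  simp only [ip, Pi.sub_apply, sub_mul, Finset.sum_sub_distrib]

lemma ip_neg_left (x w : Fin n → ℝ) : ip (-x) w = -ip x w := by
  simp only [ip, Pi.neg_apply, neg_mul, Finset.sum_neg_distrib]

lemma ip_add_right (x y w : Fin n → ℝ) : ip w (x + y) = ip w x + ip w y := by
  rw [ip_comm, ip_add_left, ip_comm x, ip_comm y]

lemma ip_sub_right (x y w : Fin n → ℝ) : ip w (x - y) = ip w x - ip w y := by
  rw [ip_comm, ip_sub_left, ip_comm x, ip_comm y]

lemma ip_zero_left (w : Fin n → ℝ) : ip 0 w = 0 := by simp [ip]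

lemma ip_zero_right (w : Fin n → ℝ) : ip w 0 = 0 := by simp [ip]

lemma pr_zero (z : Fin n → ℂ) : pr 0 z = 0 := by simp [pr]

lemma pr_add (x y : Fin n → ℝ) (z : Fin n → ℂ) : pr (x + y) z = pr x z + pr y z := by
  simp only [pr, Pi.add_apply, ofReal_add, add_mul, Finset.sum_add_distrib]

lemma pr_sh (l : Fin n → ℝ) (τ : ℂ) (z : Fin n → ℂ) (x y : Fin n → ℝ) :
    pr l (sh τ z x y) = pr l z + (ip l x : ℝ) * τ + (ip l y : ℝ) := by
  simp only [pr, sh, ip, mul_add, Finset.sum_add_distrib, ofReal_sum, ofReal_mul, Finset.sum_mul,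
    mul_assoc]

lemma sh_zero (τ : ℂ) (z : Fin n → ℂ) : sh τ z 0 0 = z := by
  funext i
  simp [sh]

/-- The scalar products of vectors of an even lattice are integers. -/
lemma ip_int {L M : AddSubgroup (Fin n → ℝ)} {r : Fin n → ℝ} (h : Setup L M r) {x y : Fin n → ℝ}
    (hx : x ∈ M) (hy : y ∈ M) : ∃ m : ℤ, ip x y = m := by
  obtain ⟨a, ha⟩ := h.even x hx
  obtain ⟨b, hb⟩ := h.even y hy
  obtain ⟨c, hc⟩ := h.even (x + y) (M.add_mem hx hy)
  refine ⟨c - a - b, ?_⟩
  rw [ip_add_left, ip_add_right, ip_add_right, ip_comm y x] at hc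
  push_cast
  linarith

end

end Run7.h824.JG
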