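import Pool.Agent.Run7.h824.JG.Bas

set_option autoImplicit false

/-!
# Invariance of the trace under the generators of `SL(2, ℤ)` (piece MODT)
-/

namespace Run7.h824.JG

open Complex MatrixGroups ModularGroup Pool.Agent.Run7.h92.JG
open UpperHalfPlane hiding I

noncomputable section

variable {n : ℕ}

lemma phi_T {L : AddSubgroup (Fin n → ℝ)} {k : ℤ} {φ : ℍ → (Fin n → ℂ) → ℂ}
    (h : IsWeakJacobi L k φ) (τ : ℍ) (w : Fin n → ℂ) : φ (T • τ) w = φ τ w := by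
  have h1 := h.modular T τ w
  simpa [T] using h1

lemma phi_S {L : AddSubgroup (Fin n → ℝ)} {k : ℤ} {φ : ℍ → (Fin n → ℂ) → ℂ}
    (h : IsWeakJacobi L k φ) (τ : ℍ) (w : Fin n → ℂ) :
    φ (S • τ) (fun i => w i / τ) = (τ : ℂ) ^ k * e (qd w / (2 * τ)) * φ τ w := by
  have h1 := h.modular S τ w
  have h2 : cexp (Real.pi * I * qd w / τ) = e (qd w / (2 * τ)) := by
    unfold e
    congr 1
    have := τ.ne_zero
    field_simp
  rw [← h2]
  simpa [S] using h1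

lemma phi_per {L : AddSubgroup (Fin n → ℝ)} {k : ℤ} {φ : ℍ → (Fin n → ℂ) → ℂ}
    (h : IsWeakJacobi L k φ) (τ : ℍ) (w : Fin n → ℂ) {y : Fin n → ℝ} (hy : y ∈ L) :
    φ τ (sh τ w 0 y) = φ τ w := by
  rw [h.periodic 0 L.zero_mem y hy, ip_zero_left, pr_zero]
  simp

/-- The dependence on `y` is modulo `L`. -/
lemma tr_per {L : AddSubgroup (Fin n → ℝ)} {k : ℤ} {φ : ℍ → (Fin n → ℂ) → ℂ}
    (h : IsWeakJacobi L k φ) (τ : ℍ) (z : Fin n → ℂ) (x y y' : Fin n → ℝ) (hy : y' - y ∈ L) :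
    tr (φ τ) τ x y' z = tr (φ τ) τ x y z := by
  unfold tr
  congr 1
  rw [← phi_per h τ (sh τ z x y) hy]
  congr 1
  funext i
  simp only [sh, Pi.sub_apply, Pi.zero_apply, ofReal_zero, ofReal_sub]
  ring

lemma tr_T {L M : AddSubgroup (Fin n → ℝ)} {r : Fin n → ℝ} (hS : Setup L M r)
    {k : ℤ} {φ : ℍ → (Fin n → ℂ) → ℂ}
    (h : IsWeakJacobi L k φ) (τ : ℍ) (z : Fin n → ℂ) (x y : Fin n → ℝ) (hx : x ∈ M) :
    tr (φ (T • τ)) ((T • τ : ℍ) : ℂ) x y z = tr (φ τ) τ x (x + y) z := by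
  obtain ⟨m, hm⟩ := hS.even x hx
  have hT : ((T • τ : ℍ) : ℂ) = τ + 1 := by
    rw [UpperHalfPlane.modular_T_smul]
    simp [add_comm]
  unfold tr
  rw [phi_T h, hT]
  congr 1
  · have : ((ip x x : ℝ) : ℂ) * ((τ : ℂ) + 1) / 2 + pr x z =
        ((ip x x : ℝ) : ℂ) * τ / 2 + pr x z + (m : ℤ) := by
      rw [hm]
      push_cast
      ring
    rw [this, e_add, e_int, mul_one]
  · congr 1
    funext i
    simp only [sh, Pi.add_apply, ofReal_add]
    ring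

lemma tr_S {L M : AddSubgroup (Fin n → ℝ)} {r : Fin n → ℝ} (hS : Setup L M r)
    {k : ℤ} {φ : ℍ → (Fin n → ℂ) → ℂ}
    (h : IsWeakJacobi L k φ) (τ : ℍ) (z : Fin n → ℂ) (x y : Fin n → ℝ) (hx : x ∈ M)
    (hy : y ∈ M) :
    tr (φ (S • τ)) ((S • τ : ℍ) : ℂ) x y (fun i => z i / τ) =
      (τ : ℂ) ^ k * e (qd z / (2 * τ)) * tr (φ τ) τ y (-x) z := by
  obtain ⟨m, hm⟩ := ip_int hS hx hy
  have hτ := τ.ne_zero
  have hSt : ((S • τ : ℍ) : ℂ) = -1 / τ := by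
    rw [UpperHalfPlane.modular_S_smul]
    simp [neg_div]
  have hw : sh ((S • τ : ℍ) : ℂ) (fun i => z i / τ) x y =
      fun i => sh τ z y (-x) i / τ := by
    funext i
    rw [hSt]
    simp only [sh, Pi.neg_apply, ofReal_neg]
    field_simp
    ring
  have hqd : qd (sh τ z y (-x)) = qd z + (ip y y : ℝ) * (τ : ℂ) ^ 2 + (ip x x : ℝ) +
      2 * pr y z * τ - 2 * pr x z - 2 * (ip x y : ℝ) * τ := by
    simp only [qd, sh, ip, pr, ofReal_sum, ofReal_mul, Finset.sum_mul, Finset.mul_sum,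
      ← Finset.sum_add_distrib, ← Finset.sum_sub_distrib, Pi.neg_apply, ofReal_neg]
    refine Finset.sum_congr rfl fun i _ => ?_
    ring
  have hpr : pr x (fun i => z i / τ) = pr x z / τ := by
    simp only [pr, Finset.sum_div, mul_div_assoc]
  unfold tr
  rw [hw, phi_S h, hqd, hpr, hSt]
  have h1 : e (((ip x x : ℝ) : ℂ) * (-1 / τ) / 2 + pr x z / τ) *
      e ((qd z + (ip y y : ℝ) * (τ : ℂ) ^ 2 + (ip x x : ℝ) + 2 * pr y z * τ - 2 * pr x z -
        2 * (ip x y : ℝ) * τ) / (2 * τ)) =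
      e (qd z / (2 * τ)) * e ((ip y y : ℝ) * τ / 2 + pr y z) := by
    have h2 : ((ip x x : ℝ) : ℂ) * (-1 / τ) / 2 + pr x z / τ +
        (qd z + (ip y y : ℝ) * (τ : ℂ) ^ 2 + (ip x x : ℝ) + 2 * pr y z * τ - 2 * pr x z -
          2 * (ip x y : ℝ) * τ) / (2 * τ) =
        qd z / (2 * τ) + ((ip y y : ℝ) * τ / 2 + pr y z) + ((-m : ℤ) : ℂ) := by
      rw [hm]
      push_cast
      field_simp
      ring
    rw [← e_add, ← e_add, h2, e_add _ ((-m : ℤ) : ℂ), e_int, mul_one]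
  linear_combination (τ : ℂ) ^ k * φ τ (sh τ z y (-x)) * h1

theorem t_MODT : S_MODT := by
  intro n L M r hS k φ h τ z
  have h0 : (0 : Fin n → ℝ) ∈ M := M.zero_mem
  have hr := hS.r_mem
  constructor
  · unfold TT
    rw [tr_T hS h τ z 0 0 h0, tr_T hS h τ z 0 r h0, tr_T hS h τ z r 0 hr, tr_T hS h τ z r r hr,
      zero_add, zero_add, add_zero,
      tr_per h τ z r 0 (r + r) (by rw [sub_zero]; exact hS.r_two)]
    ring
  · unfold TT
    rw [tr_S hS h τ z 0 0 h0 h0, tr_S hS h τ z 0 r h0 hr, tr_S hS h τ z r 0 hr h0,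
      tr_S hS h τ z r r hr hr, neg_zero,
      tr_per h τ z 0 r (-r) (by
        have := L.neg_mem hS.r_two
        rwa [neg_add] at this),
      tr_per h τ z r r (-r) (by
        have := L.neg_mem hS.r_two
        rwa [neg_add] at this)]
    ring

end

end Run7.h824.JG
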