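import Pool.Agent.Run7.h824.JG.Bas

set_option autoImplicit false

/-!
# The trace in terms of the theta function (piece TRACE)
-/

namespace Run7.h824.JG

open Complex MatrixGroups ModularGroup Pool.Agent.Run7.h92.JG
open UpperHalfPlane hiding I

noncomputable section

variable {n : ℕ}

/-- The factor `1 + e ((l, r))`. -/
lemma fac {L M : AddSubgroup (Fin n → ℝ)} {r : Fin n → ℝ} (h : Setup L M r)
    {c : (Fin n → ℝ) → ℂ} (hc : ∀ l, l ∉ dual L → c l = 0) (l : Fin n → ℝ) :
    c l * (1 + e ((ip l r : ℝ) : ℂ)) = 2 * Set.indicator (M : Set (Fin n → ℝ)) c l := by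
  by_cases hl : l ∈ M
  · rw [Set.indicator_of_mem (by exact hl)]
    obtain ⟨m, hm⟩ := ip_int h hl h.r_mem
    rw [hm, ofReal_intCast, e_int]
    ring
  · rw [Set.indicator_of_notMem (by exact hl), mul_zero]
    by_cases hd : l ∈ dual L
    · obtain ⟨m, hm⟩ := hd _ h.r_two
      rw [ip_add_left] at hm
      have hr : ip l r = (m : ℝ) / 2 := by rw [ip_comm l r]; linarith
      rcases Int.even_or_odd' m with ⟨p, hp | hp⟩
      · exfalso
        apply hl
        have hr2 : ip r l = (p : ℝ) := by
          rw [ip_comm, hr, hp]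
          push_cast
          ring
        refine h.self l fun x hx => ?_
        rcases h.coset x hx with h1 | h1
        · exact hd x h1
        · obtain ⟨q, hq⟩ := hd _ h1
          refine ⟨q + p, ?_⟩
          rw [ip_sub_left] at hq
          push_cast
          linarith
      · have h2 : ((ip l r : ℝ) : ℂ) = (p : ℂ) + 1 / 2 := by
          rw [hr, hp]
          push_cast
          ring
        rw [h2, e_half]
        ring
    · rw [hc l hd, zero_mul]

lemma e4 (a b c d : ℂ) : e a * (e b * e c * e d) = e (a + b + c + d) := by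
  rw [e_add, e_add, e_add]
  ring

/-- The coefficients of the trace. -/
lemma coef {L M : AddSubgroup (Fin n → ℝ)} {r : Fin n → ℝ} (h : Setup L M r) (τ : ℂ)
    (z : Fin n → ℂ) (c : (Fin n → ℝ) → ℂ)
    (hq : ∀ x ∈ L, ∀ l, c (l + x) = e ((((ip x x : ℝ) : ℂ) / 2 + (ip l x : ℝ)) * τ) * c l)
    {m : Fin n → ℝ} (hm : m ∈ M) :
    c m * e (pr m z) +
      c (m - r) * (e (pr (m - r) z) * e ((ip (m - r) r : ℝ) * τ) * e (τ + pr r z)) =
      (c 0 + e (-τ) * c (-r)) * e ((ip m m : ℝ) * τ / 2 + pr m z) := by
  have hpr : pr (m - r) z + pr r z = pr m z := by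
    rw [← pr_add, sub_add_cancel]
  have hrr : ip (m - r) r = ip m r - 2 := by rw [ip_sub_left, h.r_norm]
  rcases h.coset m hm with hL | hL
  · have e1 : c m = e ((ip m m : ℝ) * τ / 2) * c 0 := by
      have := hq m hL 0
      rw [zero_add, ip_zero_left] at this
      rw [this]
      congr 2
      push_cast
      ring
    have e2 : c (m - r) = e (((ip m m : ℝ) / 2 - (ip m r : ℝ)) * τ) * c (-r) := by
      have := hq m hL (-r)
      rw [show -r + m = m - r by abel, ip_neg_left, ip_comm r m] at this
      rw [this]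
      congr 2
      push_cast
      ring
    have e3 : c (m - r) * (e (pr (m - r) z) * e ((ip (m - r) r : ℝ) * τ) * e (τ + pr r z)) =
        c (-r) * (e (-τ) * e ((ip m m : ℝ) * τ / 2 + pr m z)) := by
      rw [e2, mul_comm _ (c (-r)), mul_assoc (c (-r)), e4, ← e_add, hrr, ← hpr]
      congr 2
      push_cast
      ring
    rw [e3, e1, e_add]
    ring
  · have n1 : ip (m - r) (m - r) = ip m m - 2 * ip m r + 2 := by
      rw [ip_sub_left, ip_sub_right, ip_sub_right, h.r_norm, ip_comm r m]
      ring
    have n2 : ip (m + r) (m + r) = ip m m + 2 * ip m r + 2 := by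
      rw [ip_add_left, ip_add_right, ip_add_right, h.r_norm, ip_comm r m]
      ring
    have hL2 : m + r ∈ L := by
      have := L.add_mem hL h.r_two
      rwa [show m - r + (r + r) = m + r by abel] at this
    have e1 : c (m - r) = e (((ip m m : ℝ) / 2 - (ip m r : ℝ) + 1) * τ) * c 0 := by
      have := hq (m - r) hL 0
      rw [zero_add, ip_zero_left, n1] at this
      rw [this]
      congr 2
      push_cast
      ring
    have e2 : c m = e ((ip m m : ℝ) * τ / 2 - τ) * c (-r) := by
      have := hq (m + r) hL2 (-r)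
      rw [show -r + (m + r) = m by abel, n2, ip_neg_left, ip_add_right, h.r_norm,
        ip_comm r m] at this
      rw [this]
      congr 2
      push_cast
      ring
    have e3 : c (m - r) * (e (pr (m - r) z) * e ((ip (m - r) r : ℝ) * τ) * e (τ + pr r z)) =
        c 0 * e ((ip m m : ℝ) * τ / 2 + pr m z) := by
      rw [e1, mul_comm _ (c 0), mul_assoc (c 0), e4, hrr, ← hpr]
      congr 2
      push_cast
      ring
    rw [e3, e2, e_add, sub_eq_add_neg, e_add]
    ring

theorem t_TRACE : S_TRACE := by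
  intro n L M r h τ ψ c hc hs hq z
  have hE : ∀ l x y : Fin n → ℝ, e (pr l (sh τ z x y)) =
      e (pr l z) * e ((ip l x : ℝ) * τ) * e ((ip l y : ℝ) : ℂ) := fun l x y => by
    rw [pr_sh, e_add, e_add]
  have s00 : HasSum (fun l => c l * e (pr l z)) (tr ψ τ 0 0 z) := by
    have h1 : tr ψ τ 0 0 z = ψ z := by
      unfold tr
      rw [sh_zero, ip_zero_left, pr_zero, ofReal_zero, zero_mul, zero_div, zero_add, e_zero,
        one_mul]
    rw [h1]
    exact hs z
  have s0r : HasSum (fun l => c l * (e (pr l z) * e ((ip l r : ℝ) : ℂ))) (tr ψ τ 0 r z) := by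
    have h1 : tr ψ τ 0 r z = ψ (sh τ z 0 r) := by
      unfold tr
      rw [ip_zero_left, pr_zero, ofReal_zero, zero_mul, zero_div, zero_add, e_zero, one_mul]
    rw [h1]
    have h2 := hs (sh τ z 0 r)
    have h3 : (fun l => c l * e (pr l (sh τ z 0 r))) =
        fun l => c l * (e (pr l z) * e ((ip l r : ℝ) : ℂ)) := by
      funext l
      rw [hE, ip_zero_right, ofReal_zero, zero_mul, e_zero, mul_one]
    rwa [h3] at h2
  have hR : e (((ip r r : ℝ) : ℂ) * τ / 2 + pr r z) = e (τ + pr r z) := by
    rw [h.r_norm]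
    congr 2
    push_cast
    ring
  have sr0 : HasSum (fun l => e (τ + pr r z) * (c l * (e (pr l z) * e ((ip l r : ℝ) * τ))))
      (tr ψ τ r 0 z) := by
    have h2 := (hs (sh τ z r 0)).mul_left (e (τ + pr r z))
    have h3 : (fun l => e (τ + pr r z) * (c l * e (pr l (sh τ z r 0)))) =
        fun l => e (τ + pr r z) * (c l * (e (pr l z) * e ((ip l r : ℝ) * τ))) := by
      funext l
      rw [hE, ip_zero_right, ofReal_zero, e_zero, mul_one]
    rw [h3] at h2
    unfold tr
    rwa [hR]
  have srr : HasSum (fun l => e (τ + pr r z) *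
      (c l * (e (pr l z) * e ((ip l r : ℝ) * τ) * e ((ip l r : ℝ) : ℂ)))) (tr ψ τ r r z) := by
    have h2 := (hs (sh τ z r r)).mul_left (e (τ + pr r z))
    have h3 : (fun l => e (τ + pr r z) * (c l * e (pr l (sh τ z r r)))) =
        fun l => e (τ + pr r z) *
          (c l * (e (pr l z) * e ((ip l r : ℝ) * τ) * e ((ip l r : ℝ) : ℂ))) := by
      funext l
      rw [hE]
    rw [h3] at h2
    unfold tr
    rwa [hR]
  have sB := sr0.add srr
  rw [← (Equiv.subRight r).hasSum_iff] at sB
  have sC := (s00.add s0r).add sB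
  have hfun : ((fun l => c l * e (pr l z) + c l * (e (pr l z) * e ((ip l r : ℝ) : ℂ))) +
      ((fun l => e (τ + pr r z) * (c l * (e (pr l z) * e ((ip l r : ℝ) * τ))) +
        e (τ + pr r z) * (c l * (e (pr l z) * e ((ip l r : ℝ) * τ) * e ((ip l r : ℝ) : ℂ)))) ∘
          (Equiv.subRight r))) = fun m => 2 * (c 0 + e (-τ) * c (-r)) * tt M τ z m := by
    funext m
    simp only [Pi.add_apply, Function.comp_apply, Equiv.subRight_apply]
    have a1 : c m * e (pr m z) + c m * (e (pr m z) * e ((ip m r : ℝ) : ℂ)) =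
        (c m * (1 + e ((ip m r : ℝ) : ℂ))) * e (pr m z) := by ring
    have a2 : e (τ + pr r z) * (c (m - r) * (e (pr (m - r) z) * e ((ip (m - r) r : ℝ) * τ))) +
        e (τ + pr r z) * (c (m - r) * (e (pr (m - r) z) * e ((ip (m - r) r : ℝ) * τ) *
          e ((ip (m - r) r : ℝ) : ℂ))) = (c (m - r) * (1 + e ((ip (m - r) r : ℝ) : ℂ))) *
            (e (pr (m - r) z) * e ((ip (m - r) r : ℝ) * τ) * e (τ + pr r z)) := by ring
    rw [a1, a2, fac h hc, fac h hc]
    unfold tt
    by_cases hm : m ∈ M
    · rw [Set.indicator_of_mem (by exact hm), Set.indicator_of_mem (by exact M.sub_mem hm h.r_mem),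
        Set.indicator_of_mem (by exact hm)]
      have := coef h (τ : ℂ) z c hq hm
      linear_combination 2 * this
    · have hm2 : m - r ∉ M := fun h1 => hm (by
        have := M.add_mem h1 h.r_mem
        rwa [sub_add_cancel] at this)
      rw [Set.indicator_of_notMem (by exact hm), Set.indicator_of_notMem (by exact hm2),
        Set.indicator_of_notMem (by exact hm)]
      ring
  have sD : HasSum (fun m => 2 * (c 0 + e (-τ) * c (-r)) * tt M τ z m)
      (TT r ψ τ z) := by
    rw [← hfun]
    have : TT r ψ τ z = tr ψ τ 0 0 z + tr ψ τ 0 r z + (tr ψ τ r 0 z + tr ψ τ r r z) := by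
      unfold TT
      ring
    rw [this]
    exact sC
  rw [← sD.tsum_eq, tsum_mul_left]
  rfl

end

end Run7.h824.JG
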